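import Pool.Agent.SDA.Limit

/-!
# The relative subgroup commutativity degree of `A_n` in `S_n` tends to `0`

For a subgroup `H` of a finite group `G`, `SDA.sd H` is the proportion of pairs `(H₁, G₁)`, with
`H₁` a subgroup of `H` and `G₁` a subgroup of `G`, such that `H₁ G₁ = G₁ H₁`. The limit of
`sd(A_n, S_n)` exists and is `0`.
-/

set_option autoImplicit false

namespace Pool.Agent.Results.MP_4192b6_al.LimitZero

theorem result :
    Filter.Tendsto (fun n : ℕ => Pool.Agent.SDA.sd (alternatingGroup (Fin n))) Filter.atTop
      (nhds 0) :=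
  Pool.Agent.SDA.tendsto_sd

end Pool.Agent.Results.MP_4192b6_al.LimitZero
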